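import Mathlib
import Pool.Agent.Q260.PT.Defs
import Pool.Agent.Q260.PT.Ladder

/-! Every vertex of the ladder is `0`-positive. -/

namespace Pool.Agent.Results.MP_703902_co.LadderZeroPositive

open Pool.Agent.Q260.PT

lemma adj_horizontal (n : ℤ) (r : Bool) : ladder.Adj (n, r) (n + 1, r) :=
  Or.inr ⟨rfl, by simp⟩

lemma adj_rung (n : ℤ) (r : Bool) : ladder.Adj (n, r) (n, !r) :=
  Or.inl ⟨rfl, by simp⟩

lemma reach_nat (n : ℤ) (r : Bool) (k : ℕ) : ladder.Reachable (n, r) (n + k, r) := by
  induction k with
  | zero => simp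
  | succ k ih =>
    refine ih.trans ?_
    have := (adj_horizontal (n + k) r).reachable
    convert this using 2
    push_cast
    ring

lemma ladder_connected : ladder.Connected := by
  haveI : Nonempty (ℤ × Bool) := ⟨(0, true)⟩
  refine SimpleGraph.Connected.mk ?_
  have h1 : ∀ (n m : ℤ) (r : Bool), ladder.Reachable (n, r) (m, r) := by
    intro n m r
    rcases le_total n m with h | h
    · have := reach_nat n r (m - n).toNat
      rwa [Int.toNat_of_nonneg (by omega), add_sub_cancel] at this
    · have := reach_nat m r (n - m).toNat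
      rw [Int.toNat_of_nonneg (by omega), add_sub_cancel] at this
      exact this.symm
  rintro ⟨n, r⟩ ⟨m, s⟩
  by_cases hrs : r = s
  · subst hrs
    exact h1 n m r
  · have : s = !r := by cases r <;> cases s <;> simp_all
    subst this
    exact (h1 n m r).trans (adj_rung m r).reachable

/-- translation composed with a possible exchange of the two sides -/
def shift (a : ℤ) (b : Bool) : ladder ≃g ladder where
  toFun x := (x.1 + a, xor x.2 b)
  invFun x := (x.1 - a, xor x.2 b)
  left_inv x := by
    apply Prod.ext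
    · simp
    · simp
  right_inv x := by
    apply Prod.ext
    · simp
    · simp
  map_rel_iff' := by
    rintro ⟨n, r⟩ ⟨m, s⟩
    simp only [Equiv.coe_fn_mk, ladder]
    constructor
    · rintro (⟨h1, h2⟩ | ⟨h1, h2⟩)
      · exact Or.inl ⟨by omega, fun h => h2 (by rw [h])⟩
      · refine Or.inr ⟨?_, ?_⟩
        · cases r <;> cases s <;> cases b <;> simp_all
        · rwa [show n + a - (m + a) = n - m by ring] at h2
    · rintro (⟨h1, h2⟩ | ⟨h1, h2⟩)
      · refine Or.inl ⟨by omega, ?_⟩
        cases r <;> cases s <;> cases b <;> simp_all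
      · refine Or.inr ⟨by rw [h1], ?_⟩
        rwa [show n + a - (m + a) = n - m by ring]

lemma transitive (u v : ℤ × Bool) : ∃ φ : ladder ≃g ladder, φ u = v := by
  refine ⟨shift (v.1 - u.1) (xor u.2 v.2), ?_⟩
  apply Prod.ext
  · change u.1 + (v.1 - u.1) = v.1
    ring
  · change xor u.2 (xor u.2 v.2) = v.2
    simp

lemma degree_le (v : ℤ × Bool) : (ladder.neighborSet v).Finite ∧
    (ladder.neighborSet v).ncard ≤ 3 := by
  classical
  have hsub : ladder.neighborSet v ⊆
      ((Finset.univ.image fun i => mm i v : Finset (ℤ × Bool)) : Set (ℤ × Bool)) := by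
    intro x hx
    obtain ⟨i, rfl⟩ := ladder_iff.1 (SimpleGraph.Adj.symm hx)
    simp
  refine ⟨(Finset.finite_toSet _).subset hsub, ?_⟩
  refine (Set.ncard_le_ncard hsub (Finset.finite_toSet _)).trans ?_
  rw [Set.ncard_coe_finset]
  exact Finset.card_image_le.trans (by simp)

/-- There is an infinite, connected, vertex-transitive graph of bounded degree (the ladder) in
which every vertex is `0`-positive. -/
theorem result : ∃ (V : Type) (G : SimpleGraph V), Infinite V ∧ Countable V ∧ G.Connected ∧
    (∀ u v : V, ∃ φ : G ≃g G, φ u = v) ∧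
    (∃ D : ℕ, ∀ v, (G.neighborSet v).Finite ∧ (G.neighborSet v).ncard ≤ D) ∧
    ∀ u : V, ZeroPositive G u := by
  refine ⟨ℤ × Bool, ladder, inferInstance, inferInstance, ladder_connected, transitive,
    ⟨3, degree_le⟩, ?_⟩
  rintro ⟨c, ε⟩
  exact ⟨(c, !ε), adj_rung c ε, ladder_atom c ε⟩

end Pool.Agent.Results.MP_703902_co.LadderZeroPositive
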